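import Pool.Agent.W805.LR.Stm5

/-!
# PD-FC: cycles with two sampled points; lonely points and big cycles
-/

set_option autoImplicit false
set_option linter.unusedSectionVars false

namespace Pool.Agent.W790.PD.FC

open Finset Equiv Filter Topology
open Pool.Agent.W805.LR Pool.Agent.W805.PD

/-! ## Averages -/

section av

variable {A : Type} [Fintype A]

lemma uavg_mono {F G : A → ℝ} (h : ∀ a, F a ≤ G a) : uavg F ≤ uavg G := by
  unfold uavg
  exact div_le_div_of_nonneg_right (Finset.sum_le_sum fun a _ => h a) (by positivity)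

lemma uavg_add (F G : A → ℝ) : uavg (fun a => F a + G a) = uavg F + uavg G := by
  unfold uavg
  rw [Finset.sum_add_distrib, add_div]

lemma uavg_mul (c : ℝ) (F : A → ℝ) : uavg (fun a => c * F a) = c * uavg F := by
  unfold uavg
  rw [← Finset.mul_sum, mul_div_assoc]

lemma uavg_sum {B : Type} (s : Finset B) (F : B → A → ℝ) :
    uavg (fun a => ∑ b ∈ s, F b a) = ∑ b ∈ s, uavg (F b) := by
  unfold uavg
  rw [Finset.sum_comm, Finset.sum_div]

lemma uavg_nonneg {F : A → ℝ} (h : ∀ a, 0 ≤ F a) : 0 ≤ uavg F := by
  unfold uavg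
  exact div_nonneg (Finset.sum_nonneg fun a _ => h a) (by positivity)

lemma uavg_const_le {c : ℝ} (hc : 0 ≤ c) : uavg (fun _ : A => c) ≤ c := by
  unfold uavg
  rw [Finset.sum_const, nsmul_eq_mul, Finset.card_univ]
  rcases Nat.eq_zero_or_pos (Fintype.card A) with h | h
  · rw [h]; simpa using hc
  · have : (0 : ℝ) < Fintype.card A := by exact_mod_cast h
    rw [mul_comm, mul_div_assoc, div_self this.ne', mul_one]

lemma uavg_equiv {B : Type} [Fintype B] (e : A ≃ B) (F : B → ℝ) :
    uavg (fun a => F (e a)) = uavg F := by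
  unfold uavg
  rw [Fintype.card_congr e, Equiv.sum_comp e F]

end av

/-! ## Two sampled points -/

section two

variable {V I : Type} [Fintype V] [DecidableEq V] [Fintype I] [DecidableEq I]

lemma two_trans {u v u' v' : V} (h : u ≠ v) (h' : u' ≠ v') :
    ∃ g : Perm V, g u = u' ∧ g v = v' := by
  refine ⟨swap (swap u u' v) v' * swap u u', ?_, ?_⟩
  · rw [Perm.mul_apply, swap_apply_left]
    apply swap_apply_of_ne_of_ne
    · intro hh
      have : swap u u' u = swap u u' v := by rw [swap_apply_left]; exact hh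
      exact h ((swap u u').injective this)
    · exact h'
  · rw [Perm.mul_apply, swap_apply_left]

lemma fib_card (i j : I) {u v u' v' : V} (h : u ≠ v) (h' : u' ≠ v') :
    (univ.filter fun y : I ↪ V => (y i, y j) = (u, v)).card =
      (univ.filter fun y : I ↪ V => (y i, y j) = (u', v')).card := by
  obtain ⟨g, hg, hg'⟩ := two_trans h h'
  refine Finset.card_bij (fun y _ => y.trans g.toEmbedding) ?_ ?_ ?_
  · intro y hy
    simp only [mem_filter, mem_univ, true_and, Prod.mk.injEq] at hy ⊢
    simp [hy.1, hy.2, hg, hg']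
  · intro y _ z _ hyz
    ext a
    have := DFunLike.congr_fun hyz a
    simpa using this
  · intro z hz
    refine ⟨z.trans (g.symm).toEmbedding, ?_, ?_⟩
    · simp only [mem_filter, mem_univ, true_and, Prod.mk.injEq] at hz ⊢
      simp only [Function.Embedding.trans_apply, Equiv.coe_toEmbedding]
      rw [hz.1, hz.2, ← hg, ← hg']
      simp
    · ext a
      simp

lemma pair_sum (i j : I) (hij : i ≠ j) (F : V → V → ℝ) :
    (∑ y : I ↪ V, F (y i) (y j)) * ((Fintype.card V : ℝ) * ((Fintype.card V : ℝ) - 1)) =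
      (Fintype.card (I ↪ V) : ℝ) * ∑ p ∈ (univ : Finset V).offDiag, F p.1 p.2 := by
  classical
  have hmaps : ∀ y ∈ (univ : Finset (I ↪ V)), (y i, y j) ∈ (univ : Finset V).offDiag := by
    intro y _
    simp only [mem_offDiag, mem_univ, true_and]
    intro h; exact hij (y.injective h)
  rcases ((univ : Finset V).offDiag).eq_empty_or_nonempty with he | ⟨p0, hp0⟩
  · have h0 : IsEmpty (I ↪ V) := ⟨fun y => by
      have := hmaps y (mem_univ _); rw [he] at this; simp at this⟩
    simp [he]
  · set c := (univ.filter fun y : I ↪ V => (y i, y j) = p0).card with hc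
    have hcard : ∀ p ∈ (univ : Finset V).offDiag,
        (univ.filter fun y : I ↪ V => (y i, y j) = p).card = c := by
      intro p hp
      simp only [mem_offDiag, mem_univ, true_and] at hp hp0
      exact fib_card i j hp hp0
    have h1 : ∑ y : I ↪ V, F (y i) (y j) =
        (c : ℝ) * ∑ p ∈ (univ : Finset V).offDiag, F p.1 p.2 := by
      rw [← Finset.sum_fiberwise_of_maps_to hmaps, Finset.mul_sum]
      refine Finset.sum_congr rfl fun p hp => ?_
      rw [← hcard p hp, ← nsmul_eq_mul]
      apply Finset.sum_eq_card_nsmul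
      intro y hy
      simp only [mem_filter, mem_univ, true_and] at hy
      rw [← hy]
    have h2 : (Fintype.card (I ↪ V) : ℝ) = ((univ : Finset V).offDiag).card * (c : ℝ) := by
      have := Finset.card_eq_sum_card_fiberwise hmaps
      rw [Finset.sum_congr rfl hcard, Finset.sum_const, smul_eq_mul] at this
      rw [← Finset.card_univ]
      exact_mod_cast this
    have h3 : (((univ : Finset V).offDiag).card : ℝ) =
        (Fintype.card V : ℝ) * ((Fintype.card V : ℝ) - 1) := by
      rw [Finset.offDiag_card, Finset.card_univ, Nat.cast_sub (Nat.le_mul_self _), Nat.cast_mul]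
      ring
    rw [h1, h2, h3]
    ring

end two

/-! ## Cycles -/

section cycles

variable {V : Type} [Fintype V] [DecidableEq V] {m K : ℕ}

lemma len_eq_card (h : Perm V) (v : V) [DecidablePred fun w => h.SameCycle v w] :
    len h v = ((univ.filter fun w => h.SameCycle v w).card : ℝ) := by
  classical
  unfold len cnt
  rw [Finset.card_eq_sum_ones, Finset.sum_filter]
  push_cast
  refine Finset.sum_congr rfl fun w _ => ?_
  by_cases hw : h.SameCycle v w <;> simp [hw]

lemma len_pos (h : Perm V) (v : V) : 1 ≤ len h v := by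
  classical
  rw [len_eq_card]
  have : 0 < (univ.filter fun w => h.SameCycle v w).card :=
    Finset.card_pos.2 ⟨v, by simp [Perm.SameCycle.refl]⟩
  exact_mod_cast this

lemma len_le (h : Perm V) (v : V) : len h v ≤ Fintype.card V := by
  classical
  rw [len_eq_card]
  exact_mod_cast Finset.card_le_univ _

lemma len_same (h : Perm V) {v w : V} (hvw : h.SameCycle v w) : len h v = len h w := by
  classical
  rw [len_eq_card, len_eq_card]
  congr 2
  ext x
  simp only [mem_filter, mem_univ, true_and]
  exact ⟨fun hx => hvw.symm.trans hx, fun hx => hvw.trans hx⟩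

lemma pc_same (h : Perm V) {v w : V} (hvw : h.SameCycle v w) : pc h v = pc h w := by
  unfold pc; rw [len_same h hvw]

lemma pc_pos (h : Perm V) (v : V) : 0 < pc h v := by
  unfold pc
  have : 0 < Fintype.card V := Fintype.card_pos_iff.2 ⟨v⟩
  have h2 : (0 : ℝ) < Fintype.card V := by exact_mod_cast this
  exact div_pos (lt_of_lt_of_le one_pos (len_pos h v)) h2

/-- The number of big cycles. -/
noncomputable def R (h : Perm V) (K : ℕ) : ℝ := ∑ v, if 1 ≤ K * pc h v then 1 / len h v else 0

/-- Mass of small cycles. -/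
noncomputable def Q (h : Perm V) (K : ℕ) : ℝ := uavg fun v => if K * pc h v < 1 then pc h v else 0

lemma zeta_nonneg (h : Perm V) (K : ℕ) : 0 ≤ zeta h K := by
  unfold zeta
  apply uavg_nonneg
  intro v
  have := pc_pos h v
  positivity

lemma R_le (h : Perm V) (hK : 1 ≤ K) : R h K ≤ K * zeta h K := by
  unfold R zeta uavg
  rw [← mul_div_assoc, Finset.mul_sum, Finset.sum_div]
  refine Finset.sum_le_sum fun v _ => ?_
  have hn : (0 : ℝ) < Fintype.card V := by exact_mod_cast Fintype.card_pos_iff.2 ⟨v⟩
  have hp := pc_pos h v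
  have hK' : (0 : ℝ) < K := by exact_mod_cast hK
  split_ifs with hv
  · have h1 : min (1 / (K * pc h v)) (K * pc h v) = 1 / (K * pc h v) := by
      apply min_eq_left
      rw [div_le_iff₀ (by positivity)]
      nlinarith
    rw [h1]
    apply le_of_eq
    have h2 : len h v = pc h v * Fintype.card V := by
      unfold pc; field_simp
    rw [h2]
    field_simp
  · have : 0 ≤ min (1 / (K * pc h v)) (K * pc h v) := by positivity
    positivity

lemma Q_le (h : Perm V) : K * Q h K ≤ zeta h K := by
  unfold Q zeta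
  rw [← uavg_mul]
  apply uavg_mono
  intro v
  have hp := pc_pos h v
  split_ifs with hv
  · rcases Nat.eq_zero_or_pos K with h0 | hK
    · subst h0; simp
    have hK' : (0 : ℝ) < K := by exact_mod_cast hK
    have h1 : min (1 / (K * pc h v)) (K * pc h v) = K * pc h v := by
      apply min_eq_right
      rw [le_div_iff₀ (by positivity)]
      have : 0 < K * pc h v := by positivity
      nlinarith
    rw [h1]
  · rw [mul_zero]; positivity

/-- Representatives of different big cycles. -/
lemma card_le_R (h : Perm V) (X : Finset V)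
    (hX : ∀ x ∈ X, ∀ z ∈ X, x ≠ z → ¬ h.SameCycle x z) (hb : ∀ x ∈ X, 1 ≤ K * pc h x) :
    (X.card : ℝ) ≤ R h K := by
  classical
  have h1 : (X.card : ℝ) = ∑ x ∈ X, ∑ v, if h.SameCycle x v then 1 / len h v else 0 := by
    rw [Finset.card_eq_sum_ones]
    push_cast
    refine Finset.sum_congr rfl fun x _ => ?_
    rw [← Finset.sum_filter]
    have : ∀ v ∈ univ.filter (fun v => h.SameCycle x v), 1 / len h v = 1 / len h x := by
      intro v hv
      simp only [mem_filter, mem_univ, true_and] at hv
      rw [len_same h hv]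
    rw [Finset.sum_congr rfl this, Finset.sum_const, nsmul_eq_mul, ← len_eq_card]
    have := len_pos h x
    field_simp
  rw [h1, Finset.sum_comm]
  unfold R
  refine Finset.sum_le_sum fun v _ => ?_
  have hpos : 0 ≤ 1 / len h v := by have := len_pos h v; positivity
  by_cases hex : ∃ x ∈ X, h.SameCycle x v
  · obtain ⟨x, hx, hxv⟩ := hex
    rw [Finset.sum_eq_single_of_mem x hx]
    · rw [if_pos hxv, if_pos]
      rw [← pc_same h hxv]; exact hb x hx
    · intro z hz hzx
      rw [if_neg]
      intro hzv
      exact hX z hz x hx hzx (hzv.trans hxv.symm)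
  · push Not at hex
    rw [Finset.sum_eq_zero fun x hx => if_neg (hex x hx)]
    split_ifs
    · exact hpos
    · exact le_rfl

/-- The sampled points. -/
lemma Y_eq (y : Ix m K ↪ V) : Sy y ∪ Ey y = univ.image y := by
  ext v
  unfold Sy Ey
  simp only [mem_union, mem_image, mem_univ, true_and]
  constructor
  · rintro (⟨i, rfl⟩ | ⟨i, rfl⟩)
    · exact ⟨_, rfl⟩
    · exact ⟨_, rfl⟩
  · rintro ⟨i | i, rfl⟩
    · exact Or.inl ⟨i, rfl⟩
    · exact Or.inr ⟨i, rfl⟩

variable (htr : S_tr)
include htr

lemma ry_same (h : Perm V) (y : Ix m K ↪ V) (i j : Ix m K) :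
    (ry h y).SameCycle (y i) (y j) ↔ h.SameCycle (y i) (y j) := by
  unfold ry
  rw [Y_eq]
  exact (htr V).2.2.2.2.2.2.2.2 h _ _ _ (by simp) (by simp)

lemma ry_out (h : Perm V) (y : Ix m K ↪ V) (v : V) (hv : ∀ i, y i ≠ v) : ry h y v = v := by
  unfold ry
  rw [Y_eq]
  exact (htr V).2.2.2.2.1 h _ _ (by simpa using hv)

lemma alone_iff (h : Perm V) (y : Ix m K ↪ V) (i : Ix m K) :
    ry h y (y i) = y i ↔ ∀ j, j ≠ i → ¬ h.SameCycle (y i) (y j) := by
  constructor
  · intro hi j hj hs
    rw [← ry_same htr h y i j] at hs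
    obtain ⟨k, hk⟩ := hs
    have : ((ry h y) ^ k) (y i) = y i := Perm.zpow_apply_eq_self_of_apply_eq_self hi k
    rw [this] at hk
    exact hj (y.injective hk).symm
  · intro hi
    by_contra hne
    have hex : ∃ j, y j = ry h y (y i) := by
      by_contra hno
      push Not at hno
      have := ry_out htr h y _ hno
      exact hne ((ry h y).injective this)
    obtain ⟨j, hj⟩ := hex
    have hji : j ≠ i := by
      rintro rfl
      exact hne hj.symm
    apply hi j hji
    rw [← ry_same htr h y i j, hj]
    exact ⟨1, by simp⟩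

/-- Indices of points in small cycles, not alone, counted by pairs. -/
noncomputable def pairI (h : Perm V) (K : ℕ) (u v : V) : ℝ :=
  open Classical in if h.SameCycle u v ∧ K * pc h u < 1 then 1 else 0

omit htr in
lemma pairI_nonneg (h : Perm V) (K : ℕ) (u v : V) : 0 ≤ pairI h K u v := by
  unfold pairI; split_ifs <;> norm_num

omit htr in
lemma pair_le (h : Perm V) (i j : Ix m K) (hij : i ≠ j) (hn : 2 ≤ Fintype.card V) :
    uavg (fun y : Ix m K ↪ V => pairI h K (y i) (y j)) ≤ Q h K := by
  classical
  have key := pair_sum i j hij (V := V) (pairI h K)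
  set n : ℝ := (Fintype.card V : ℝ) with hndef
  have hn2 : (2 : ℝ) ≤ n := by rw [hndef]; exact_mod_cast hn
  have hn1 : 0 < n * (n - 1) := by nlinarith
  have hsum : ∑ p ∈ (univ : Finset V).offDiag, pairI h K p.1 p.2 ≤
      n * (n - 1) * Q h K := by
    have e1 : ∑ p ∈ (univ : Finset V).offDiag, pairI h K p.1 p.2 =
        ∑ u : V, (if K * pc h u < 1 then (len h u - 1) else 0) := by
      have e2 : ∑ p ∈ (univ : Finset V).offDiag, pairI h K p.1 p.2 =
          ∑ u : V, ∑ v : V, if u ≠ v then pairI h K u v else 0 := by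
        rw [← Finset.sum_product', ← Finset.sum_filter]
        apply Finset.sum_congr _ fun _ _ => rfl
        ext p
        simp
      rw [e2]
      refine Finset.sum_congr rfl fun u _ => ?_
      by_cases hu : K * pc h u < 1
      · rw [if_pos hu]
        have : ∀ v : V, (if u ≠ v then pairI h K u v else 0) =
            (if h.SameCycle u v then (1 : ℝ) else 0) - (if v = u then 1 else 0) := by
          intro v
          unfold pairI
          by_cases huv : u = v
          · subst huv
            simp [Perm.SameCycle.refl]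
          · have huv' : ¬ v = u := fun h => huv h.symm
            simp [huv, huv', hu]
        rw [Finset.sum_congr rfl fun v _ => this v, Finset.sum_sub_distrib]
        congr 1
        · unfold len cnt
          refine Finset.sum_congr rfl fun v _ => ?_
          congr
        · simp
      · rw [if_neg hu]
        apply Finset.sum_eq_zero
        intro v _
        unfold pairI
        simp [hu]
    rw [e1]
    unfold Q uavg
    rw [← hndef, ← mul_div_assoc, le_div_iff₀ (by linarith), Finset.mul_sum, Finset.sum_mul]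
    refine Finset.sum_le_sum fun u _ => ?_
    split_ifs with hu
    · have h1 : pc h u = len h u / n := rfl
      have h2 := len_le h u
      rw [← hndef] at h2
      rw [h1]
      have h3 : n * (n - 1) * (len h u / n) = (n - 1) * len h u := by
        have : n ≠ 0 := by linarith
        field_simp
      rw [h3]
      nlinarith [len_pos h u]
    · simp
  rcases Nat.eq_zero_or_pos (Fintype.card (Ix m K ↪ V)) with h0 | hpos
  · unfold uavg
    rw [h0]
    simp only [Nat.cast_zero, div_zero]
    unfold Q
    apply uavg_nonneg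
    intro v
    have := pc_pos h v
    split_ifs
    · exact this.le
    · exact le_rfl
  · have hc : (0 : ℝ) < Fintype.card (Ix m K ↪ V) := by exact_mod_cast hpos
    unfold uavg
    rw [div_le_iff₀ hc]
    have h4 := mul_le_mul_of_nonneg_left hsum hc.le
    rw [← key] at h4
    have h5 : (∑ y : Ix m K ↪ V, pairI h K (y i) (y j)) * (n * (n - 1)) ≤
        (Q h K * (Fintype.card (Ix m K ↪ V) : ℝ)) * (n * (n - 1)) := by
      calc _ ≤ _ := h4
        _ = _ := by ring
    exact le_of_mul_le_mul_right h5 hn1

/-- The cycles with two sampled points. -/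
lemma Zy_le (h : Perm V) (y : Ix m K ↪ V) :
    (Zy h y : ℝ) ≤ R h K + ∑ i, ∑ j ∈ univ.filter (fun j => i ≠ j), pairI h K (y i) (y j) := by
  classical
  set ρ := ry h y with hρ
  have hZ : Zy h y = ρ.cycleFactorsFinset.card := by
    unfold Zy
    rw [Perm.cycleType_def, Multiset.card_map]
    rfl
  have hchoice : ∀ c : ρ.cycleFactorsFinset, ∃ i : Ix m K, y i ∈ c.1.support := by
    intro c
    obtain ⟨x, hx⟩ := (Perm.mem_cycleFactorsFinset_iff.1 c.2).1.nonempty_support
    have hx2 : x ∈ ρ.support := Perm.mem_cycleFactorsFinset_support_le c.2 hx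
    have hex : ∃ i, y i = x := by
      by_contra hno
      push Not at hno
      rw [Perm.mem_support] at hx2
      exact hx2 (ry_out htr h y x hno)
    obtain ⟨i, hi⟩ := hex
    exact ⟨i, hi ▸ hx⟩
  choose f hf using hchoice
  have hcyc : ∀ c, c.1 = ρ.cycleOf (y (f c)) := fun c => Perm.cycle_is_cycleOf (hf c) c.2
  have hsame : ∀ c c', h.SameCycle (y (f c)) (y (f c')) → c = c' := by
    intro c c' hs
    rw [← ry_same htr h y] at hs
    apply Subtype.ext
    rw [hcyc c, hcyc c']
    exact hs.cycleOf_eq
  have hmoved : ∀ c, ρ (y (f c)) ≠ y (f c) := by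
    intro c
    have := Perm.mem_cycleFactorsFinset_support_le c.2 (hf c)
    rwa [Perm.mem_support] at this
  have hinj : Function.Injective fun c => y (f c) := by
    intro c c' hcc
    apply hsame
    simp only at hcc
    rw [hcc]
  -- split
  have hcard : (Zy h y : ℝ) = ∑ c : ρ.cycleFactorsFinset, (1 : ℝ) := by
    rw [hZ]; simp
  have hsplit : ∀ c : ρ.cycleFactorsFinset, (1 : ℝ) =
      (if 1 ≤ K * pc h (y (f c)) then 1 else 0) + (if K * pc h (y (f c)) < 1 then 1 else 0) := by
    intro c
    by_cases hc : 1 ≤ K * pc h (y (f c))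
    · rw [if_pos hc, if_neg (not_lt.2 hc), add_zero]
    · rw [if_neg hc, if_pos (not_le.1 hc), zero_add]
  rw [hcard, Finset.sum_congr rfl fun c _ => hsplit c, Finset.sum_add_distrib]
  apply add_le_add
  · rw [Finset.sum_boole]
    have := card_le_R (K := K) h ((univ.filter fun c : ρ.cycleFactorsFinset =>
      1 ≤ K * pc h (y (f c))).image fun c => y (f c)) ?_ ?_
    · rwa [Finset.card_image_of_injective _ hinj] at this
    · intro x hx z hz hxz
      obtain ⟨c, -, rfl⟩ := Finset.mem_image.1 hx
      obtain ⟨c', -, rfl⟩ := Finset.mem_image.1 hz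
      intro hs
      exact hxz (by rw [hsame c c' hs])
    · intro x hx
      obtain ⟨c, hc, rfl⟩ := Finset.mem_image.1 hx
      exact (Finset.mem_filter.1 hc).2
  · have hfi : Function.Injective f := fun c c' hcc => hinj (by simp only [hcc])
    have h1 : ∀ c : ρ.cycleFactorsFinset, (if K * pc h (y (f c)) < 1 then (1 : ℝ) else 0) ≤
        ∑ j ∈ univ.filter (fun j => f c ≠ j), pairI h K (y (f c)) (y j) := by
      intro c
      have hnn : ∀ j ∈ univ.filter (fun j => f c ≠ j), 0 ≤ pairI h K (y (f c)) (y j) :=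
        fun j _ => pairI_nonneg h K _ _
      split_ifs with hc
      · have hna := hmoved c
        rw [hρ, Ne, alone_iff htr] at hna
        push Not at hna
        obtain ⟨j, hj, hs⟩ := hna
        refine le_trans ?_ (Finset.single_le_sum hnn (by simpa using hj.symm : j ∈ _))
        unfold pairI
        rw [if_pos ⟨hs, hc⟩]
      · exact Finset.sum_nonneg hnn
    refine le_trans (Finset.sum_le_sum fun c _ => h1 c) ?_
    have h2 : ∑ c : ρ.cycleFactorsFinset, ∑ j ∈ univ.filter (fun j => f c ≠ j),
        pairI h K (y (f c)) (y j) = ∑ i ∈ univ.image f, ∑ j ∈ univ.filter (fun j => i ≠ j),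
        pairI h K (y i) (y j) := by
      rw [Finset.sum_image fun a _ b _ hab => hfi hab]
    rw [h2]
    exact Finset.sum_le_sum_of_subset_of_nonneg (Finset.subset_univ _) fun i _ _ =>
      Finset.sum_nonneg fun j _ => pairI_nonneg h K _ _

/-- The indicator of a lonely point in a big cycle. -/
noncomputable def lonI {I : Type} (h : Perm V) (K : ℕ) (y : I ↪ V) (i : I) : ℝ :=
  open Classical in if (∀ j, j ≠ i → ¬ h.SameCycle (y i) (y j)) ∧ 1 ≤ K * pc h (y i) then 1 else 0

omit htr in
lemma lon_sum (h : Perm V) (y : Ix m K ↪ V) : ∑ i, lonI h K y i ≤ R h K := by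
  classical
  have hsum : ∑ i, lonI h K y i = (((univ.filter fun i : Ix m K =>
      (∀ j, j ≠ i → ¬ h.SameCycle (y i) (y j)) ∧ 1 ≤ K * pc h (y i))).card : ℝ) := by
    rw [Finset.card_eq_sum_ones, Finset.sum_filter]
    push_cast
    refine Finset.sum_congr rfl fun w _ => ?_
    unfold lonI
    congr
  rw [hsum]
  have := card_le_R (K := K) h ((univ.filter fun i : Ix m K =>
      (∀ j, j ≠ i → ¬ h.SameCycle (y i) (y j)) ∧ 1 ≤ K * pc h (y i)).image y) ?_ ?_
  · rwa [Finset.card_image_of_injective _ y.injective] at this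
  · intro x hx z hz hxz
    obtain ⟨i, hi, rfl⟩ := Finset.mem_image.1 hx
    obtain ⟨j, -, rfl⟩ := Finset.mem_image.1 hz
    exact (Finset.mem_filter.1 hi).2.1 j (fun hh => hxz (by rw [hh]))
  · intro x hx
    obtain ⟨i, hi, rfl⟩ := Finset.mem_image.1 hx
    exact (Finset.mem_filter.1 hi).2.2

omit htr in
lemma lon_symm (h : Perm V) (i j : Ix m K) :
    uavg (fun y : Ix m K ↪ V => lonI h K y i) = uavg (fun y : Ix m K ↪ V => lonI h K y j) := by
  classical
  let e : (Ix m K ↪ V) ≃ (Ix m K ↪ V) :=
    { toFun := fun y => (swap i j).toEmbedding.trans y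
      invFun := fun y => (swap i j).toEmbedding.trans y
      left_inv := fun y => by ext a; simp
      right_inv := fun y => by ext a; simp }
  rw [← uavg_equiv e (fun y : Ix m K ↪ V => lonI h K y j)]
  congr 1
  ext y
  unfold lonI
  have hP : ((∀ k, k ≠ i → ¬ h.SameCycle (y i) (y k)) ∧ 1 ≤ K * pc h (y i)) ↔
      ((∀ k, k ≠ j → ¬ h.SameCycle ((e y) j) ((e y) k)) ∧ 1 ≤ K * pc h ((e y) j)) := by
    have he : ∀ k, (e y) k = y (swap i j k) := fun k => rfl
    simp only [he, swap_apply_right]
    constructor
    · rintro ⟨h1, h2⟩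
      refine ⟨fun k hk => h1 _ ?_, h2⟩
      intro hh
      apply hk
      have := congrArg (swap i j) hh
      simpa using this
    · rintro ⟨h1, h2⟩
      refine ⟨fun k hk => ?_, h2⟩
      have := h1 (swap i j k) ?_
      · simpa using this
      · intro hh
        apply hk
        have := congrArg (swap i j) hh
        simpa using this
  simp only [hP]
  congr

omit htr in
lemma lon_le (h : Perm V) (hK : 1 ≤ K) (i : Ix m K) :
    uavg (fun y : Ix m K ↪ V => lonI h K y i) ≤ zeta h K / 2 := by
  have h1 : uavg (fun y : Ix m K ↪ V => ∑ j, lonI h K y j) ≤ R h K := by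
    refine le_trans (uavg_mono fun y => lon_sum h y) (uavg_const_le ?_)
    unfold R
    apply Finset.sum_nonneg
    intro v _
    have := len_pos h v
    split_ifs
    · positivity
    · exact le_rfl
  rw [uavg_sum, Finset.sum_congr rfl fun j _ => lon_symm h j i, Finset.sum_const, Finset.card_univ,
    nsmul_eq_mul] at h1
  have hc : Fintype.card (Ix m K) = m + 2 * K := by
    simp [Ix, mul_comm]
  rw [hc] at h1
  have h2 := R_le h hK
  have hz := zeta_nonneg h K
  have hl : 0 ≤ uavg (fun y : Ix m K ↪ V => lonI h K y i) :=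
    uavg_nonneg fun y => by unfold lonI; split_ifs <;> norm_num
  have hK' : (1 : ℝ) ≤ K := by exact_mod_cast hK
  have hm : (0 : ℝ) ≤ m := by positivity
  push_cast at h1
  have h3 : 2 * (K : ℝ) * uavg (fun y : Ix m K ↪ V => lonI h K y i) ≤ K * zeta h K := by
    nlinarith
  have h4 : (K : ℝ) * (2 * uavg (fun y : Ix m K ↪ V => lonI h K y i)) ≤ K * zeta h K := by
    linarith
  have := le_of_mul_le_mul_left h4 (by linarith)
  linarith

lemma Ay_le (h : Perm V) (y : Ix m K ↪ V) :
    (if Ay h y = big h K (fun i => y (Sum.inl i)) then (0 : ℝ) else 1) ≤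
      ∑ i : Fin m, (lonI h K y (Sum.inl i) +
        ∑ j ∈ univ.filter (fun j => Sum.inl i ≠ j), pairI h K (y (Sum.inl i)) (y j)) := by
  classical
  have hnn : ∀ i : Fin m, 0 ≤ lonI h K y (Sum.inl i) +
        ∑ j ∈ univ.filter (fun j => Sum.inl i ≠ j), pairI h K (y (Sum.inl i)) (y j) := by
    intro i
    apply add_nonneg
    · unfold lonI; split_ifs <;> norm_num
    · exact Finset.sum_nonneg fun j _ => pairI_nonneg h K _ _
  split_ifs with hA
  · exact Finset.sum_nonneg fun i _ => hnn i
  · have : ∃ i, ¬ (i ∈ Ay h y ↔ i ∈ big h K (fun i => y (Sum.inl i))) := by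
      by_contra hno
      push Not at hno
      exact hA (Finset.ext hno)
    obtain ⟨i, hi⟩ := this
    refine le_trans ?_ (Finset.single_le_sum (fun i _ => hnn i) (mem_univ i))
    have e1 : i ∈ Ay h y ↔ ry h y (y (Sum.inl i)) ≠ y (Sum.inl i) := by
      unfold Ay; simp
    have e2 : i ∈ big h K (fun i => y (Sum.inl i)) ↔ 1 ≤ K * pc h (y (Sum.inl i)) := by
      unfold big; simp
    by_cases ha : ry h y (y (Sum.inl i)) = y (Sum.inl i)
    · have hb : 1 ≤ K * pc h (y (Sum.inl i)) := by
        by_contra hb
        exact hi ⟨fun hx => absurd ha (e1.1 hx), fun hx => absurd (e2.1 hx) hb⟩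
      rw [alone_iff htr] at ha
      have h1 : lonI h K y (Sum.inl i) = 1 := by
        unfold lonI
        rw [if_pos ⟨ha, hb⟩]
      rw [h1]
      have : 0 ≤ ∑ j ∈ univ.filter (fun j => Sum.inl i ≠ j), pairI h K (y (Sum.inl i)) (y j) :=
        Finset.sum_nonneg fun j _ => pairI_nonneg h K _ _
      linarith
    · have hb : K * pc h (y (Sum.inl i)) < 1 := by
        by_contra hb
        exact hi ⟨fun _ => e2.2 (not_lt.1 hb), fun _ => e1.2 ha⟩
      rw [alone_iff htr] at ha
      push Not at ha
      obtain ⟨j, hj, hs⟩ := ha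
      have h1 : 0 ≤ lonI h K y (Sum.inl i) := by unfold lonI; split_ifs <;> norm_num
      have h2 : (1 : ℝ) ≤ ∑ j ∈ univ.filter (fun j => Sum.inl i ≠ j),
          pairI h K (y (Sum.inl i)) (y j) := by
        refine le_trans ?_ (Finset.single_le_sum (fun j _ => pairI_nonneg h K _ _)
          (by simpa using hj.symm : j ∈ _))
        unfold pairI
        rw [if_pos ⟨hs, hb⟩]
      linarith

end cycles

/-- PD-FC. -/
theorem main (htr : S_tr) : S_FC := by
  classical
  intro m
  refine ⟨10 + 4 * m, by positivity, fun K hmK hK => ⟨2, ?_⟩⟩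
  intro V _ _ h hn
  have hz := zeta_nonneg h K
  have hK' : (1 : ℝ) ≤ K := by exact_mod_cast hK
  have hm' : (m : ℝ) ≤ K := by exact_mod_cast hmK
  have hm0 : (0 : ℝ) ≤ m := by positivity
  have hQ := Q_le (K := K) h
  have hQ0 : 0 ≤ Q h K := by
    unfold Q
    apply uavg_nonneg
    intro v
    have := pc_pos h v
    split_ifs
    · exact this.le
    · exact le_rfl
  have hcard : (Fintype.card (Ix m K) : ℝ) = m + 2 * K := by
    have : Fintype.card (Ix m K) = m + 2 * K := by simp [Ix, mul_comm]
    rw [this]; push_cast; ring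
  have hrow : ∀ i : Ix m K, uavg (fun y : Ix m K ↪ V =>
      ∑ j ∈ univ.filter (fun j => i ≠ j), pairI h K (y i) (y j)) ≤ (m + 2 * K) * Q h K := by
    intro i
    rw [uavg_sum (univ.filter fun j => i ≠ j) fun j (y : Ix m K ↪ V) => pairI h K (y i) (y j)]
    refine le_trans (Finset.sum_le_sum fun j hj => pair_le h i j (Finset.mem_filter.1 hj).2 hn) ?_
    rw [Finset.sum_const, nsmul_eq_mul, ← hcard]
    apply mul_le_mul_of_nonneg_right _ hQ0
    exact_mod_cast Finset.card_le_univ _
  constructor
  · refine le_trans (uavg_mono fun y => Zy_le htr h y) ?_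
    rw [uavg_add, uavg_sum univ fun i (y : Ix m K ↪ V) =>
      ∑ j ∈ univ.filter (fun j => i ≠ j), pairI h K (y i) (y j)]
    have hR : uavg (fun _ : Ix m K ↪ V => R h K) ≤ K * zeta h K := by
      refine le_trans (uavg_const_le ?_) (R_le h hK)
      unfold R
      apply Finset.sum_nonneg
      intro v _
      have := len_pos h v
      split_ifs
      · positivity
      · exact le_rfl
    have h2 : ∑ i : Ix m K, uavg (fun y : Ix m K ↪ V =>
        ∑ j ∈ univ.filter (fun j => i ≠ j), pairI h K (y i) (y j)) ≤
        (m + 2 * K) * ((m + 2 * K) * Q h K) := by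
      refine le_trans (Finset.sum_le_sum fun i _ => hrow i) ?_
      rw [Finset.sum_const, nsmul_eq_mul, Finset.card_univ, hcard]
    have h3 : (m + 2 * (K : ℝ)) * ((m + 2 * K) * Q h K) ≤ 9 * K * zeta h K := by
      have h4 : (m + 2 * (K : ℝ)) ≤ 3 * K := by linarith
      have h5 : (m + 2 * (K : ℝ)) * Q h K ≤ 3 * zeta h K := by
        calc (m + 2 * (K : ℝ)) * Q h K ≤ 3 * K * Q h K := mul_le_mul_of_nonneg_right h4 hQ0
          _ = 3 * (K * Q h K) := by ring
          _ ≤ 3 * zeta h K := by linarith
      calc (m + 2 * (K : ℝ)) * ((m + 2 * K) * Q h K) ≤ (3 * K) * (3 * zeta h K) :=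
            mul_le_mul h4 h5 (by positivity) (by positivity)
        _ = 9 * K * zeta h K := by ring
    have h6 : 0 ≤ (m : ℝ) * (K * zeta h K) := by positivity
    nlinarith
  · refine le_trans (uavg_mono fun y => Ay_le htr h y) ?_
    rw [uavg_sum univ fun (i : Fin m) (y : Ix m K ↪ V) => (lonI h K y (Sum.inl i) +
        ∑ j ∈ univ.filter (fun j => Sum.inl i ≠ j), pairI h K (y (Sum.inl i)) (y j))]
    have h1 : ∀ i : Fin m, uavg (fun y : Ix m K ↪ V => (lonI h K y (Sum.inl i) +
        ∑ j ∈ univ.filter (fun j => Sum.inl i ≠ j), pairI h K (y (Sum.inl i)) (y j))) ≤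
        4 * zeta h K := by
      intro i
      rw [uavg_add]
      have h2 := lon_le (m := m) h hK (Sum.inl i)
      have h3 := hrow (Sum.inl i)
      have h4 : (m + 2 * (K : ℝ)) ≤ 3 * K := by linarith
      have h5 : (m + 2 * (K : ℝ)) * Q h K ≤ 3 * zeta h K := by
        calc (m + 2 * (K : ℝ)) * Q h K ≤ 3 * K * Q h K := mul_le_mul_of_nonneg_right h4 hQ0
          _ = 3 * (K * Q h K) := by ring
          _ ≤ 3 * zeta h K := by linarith
      linarith
    refine le_trans (Finset.sum_le_sum fun i _ => h1 i) ?_
    rw [Finset.sum_const, nsmul_eq_mul, Finset.card_univ, Fintype.card_fin]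
    nlinarith

end Pool.Agent.W790.PD.FC
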